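import Mathlib

set_option autoImplicit false

/-! # Local models: states of the vertices and of the edges -/

namespace Pool.Agent.Q210.LM

open Classical in
/-- What the vertex `v` sees in the configuration `(f, c)`: the multiset, over the neighbours `w`
of `v`, of the pairs of the state of the edge `vw` and the state of the vertex `w`. -/
noncomputable def around {V : Type} [Fintype V] {k l : ℕ} (G : SimpleGraph V) (f : V → Fin k)
    (c : G.edgeSet → Fin l) (v : V) : Multiset (Fin l × Fin k) :=
  (Finset.univ : Finset (G.neighborSet v)).val.map fun w => (c ⟨s(v, w.1), w.2⟩, f w.1)

/-- The multiset, over all vertices `v`, of the state of `v` together with what `v` sees. -/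
noncomputable def views {V : Type} [Fintype V] {k l : ℕ} (G : SimpleGraph V) (f : V → Fin k)
    (c : G.edgeSet → Fin l) : Multiset (Fin k × Multiset (Fin l × Fin k)) :=
  (Finset.univ : Finset V).val.map fun v => (f v, around G f c v)

open Classical in
/-- The partition function of the local model with `k` states of the vertices and `l` states of
the edges in which a vertex with the state `i` that sees `S` has the weight `h i S`. -/
noncomputable def localModel {V : Type} [Fintype V] {k l : ℕ} {R : Type} [CommSemiring R]
    (G : SimpleGraph V) (h : Fin k → Multiset (Fin l × Fin k) → R) : R :=
  ∑ f : V → Fin k, ∑ c : G.edgeSet → Fin l, ∏ v, h (f v) (around G f c v)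

end Pool.Agent.Q210.LM
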