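import Pool.Agent.Q210.GC.Wl
import Pool.Agent.Q210.SM.Graph

set_option autoImplicit false

/-! # The network with the gadget of a permutation -/

namespace Pool.Agent.Q210.LM

open Finset Pool.Agent.TH658.Dg Pool.Agent.H521R3.BI Pool.Agent.Q210.SM Pool.Agent.Q210.SP
  Pool.Agent.Q210.GC

/-- The extra vertices. -/
inductive Ex (m r : ℕ) : Type
  /-- The double cover of the cube. -/
  | s (S : Finset (Fin r)) (ε : ZMod 2)
  /-- The coordinates. -/
  | x (i : Fin r)
  /-- The labels. -/
  | u (j : Fin r)
  /-- The hubs of the rows and columns. -/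
  | q (t : Fin 2) (a : ZMod m)
  /-- The hub of the bits. -/
  | h

variable {m r : ℕ}

/-- The extra vertices as a sum. -/
def exEquiv (m r : ℕ) : Ex m r ≃
    (Finset (Fin r) × ZMod 2) ⊕ Fin r ⊕ Fin r ⊕ (Fin 2 × ZMod m) ⊕ Unit where
  toFun
    | Ex.s S ε => Sum.inl (S, ε)
    | Ex.x i => Sum.inr (Sum.inl i)
    | Ex.u j => Sum.inr (Sum.inr (Sum.inl j))
    | Ex.q t a => Sum.inr (Sum.inr (Sum.inr (Sum.inl (t, a))))
    | Ex.h => Sum.inr (Sum.inr (Sum.inr (Sum.inr ())))
  invFun
    | Sum.inl (S, ε) => Ex.s S ε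
    | Sum.inr (Sum.inl i) => Ex.x i
    | Sum.inr (Sum.inr (Sum.inl j)) => Ex.u j
    | Sum.inr (Sum.inr (Sum.inr (Sum.inl (t, a)))) => Ex.q t a
    | Sum.inr (Sum.inr (Sum.inr (Sum.inr _))) => Ex.h
  left_inv v := by cases v <;> rfl
  right_inv v := by
    rcases v with ⟨S, ε⟩ | i | j | ⟨t, a⟩ | u <;> rfl

instance [NeZero m] : Fintype (Ex m r) := Fintype.ofEquiv _ (exEquiv m r).symm

/-- One direction of the adjacency of the extra vertices. -/
def erel (σ : Equiv.Perm (Fin r)) : Ex m r → Ex m r → Prop
  | Ex.s S ε, Ex.s T δ => ∃ i, i ∉ S ∧ T = insert i S ∧ δ = ε + up S i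
  | Ex.s S _, Ex.x i => i ∈ S
  | Ex.x i, Ex.u j => σ j = i
  | _, _ => False

theorem erel_irrefl (σ : Equiv.Perm (Fin r)) (v : Ex m r) : ¬ erel σ v v := by
  cases v with
  | s S ε =>
    rintro ⟨i, hi, h, _⟩
    apply hi
    rw [h]
    exact Finset.mem_insert_self _ _
  | x i => exact id
  | u j => exact id
  | q t a => exact id
  | h => exact id

/-- The graph on the extra vertices. -/
def exg (m : ℕ) (σ : Equiv.Perm (Fin r)) : SimpleGraph (Ex m r) where
  Adj u v := erel σ u v ∨ erel σ v u
  symm := ⟨fun _ _ h => h.symm⟩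
  loopless := ⟨fun v h => erel_irrefl σ v (h.elim id id)⟩

/-- The attachment. -/
def ext (v : MQ m) (c : ZMod 2) : Ex m r → Prop
  | Ex.s S ε => v = 0 ∧ S = Finset.univ ∧ ε = c
  | Ex.x _ => False
  | Ex.u _ => False
  | Ex.q t a => (t = 0 ∧ a = v.1) ∨ (t = 1 ∧ a = v.2)
  | Ex.h => v ≠ 0 ∧ c = 1

/-- The labels. -/
def elb (m r p : ℕ) : Ex m r → ℕ
  | Ex.s S ε => if S = ∅ ∧ ε = 0 then 10 + r + 2 * m + p else 0
  | Ex.x _ => 0
  | Ex.u j => 9 + j.1
  | Ex.q t a => 9 + r + 2 * a.val + t.1
  | Ex.h => 9 + r + 2 * m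

/-- The action of a permutation on the extra vertices. -/
def eact (π : Equiv.Perm (Fin r)) : Ex m r → Ex m r
  | Ex.s S ε => Ex.s (S.map π.toEmbedding) (ε + inv π S)
  | Ex.x i => Ex.x (π i)
  | Ex.u j => Ex.u j
  | Ex.q t a => Ex.q t a
  | Ex.h => Ex.h

theorem eact_comp (π σ : Equiv.Perm (Fin r)) (v : Ex m r) :
    eact π (eact σ v) = eact (π * σ) v := by
  cases v with
  | s S ε =>
    show Ex.s ((S.map σ.toEmbedding).map π.toEmbedding) (ε + inv σ S + inv π (S.map _)) =
      Ex.s (S.map (π * σ).toEmbedding) (ε + inv (π * σ) S)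
    rw [inv_mul, Finset.map_map, add_assoc]
    rfl
  | x i => rfl
  | u j => rfl
  | q t a => rfl
  | h => rfl

theorem eact_one (v : Ex m r) : eact 1 v = v := by
  cases v with
  | s S ε =>
    show Ex.s (S.map (1 : Equiv.Perm (Fin r)).toEmbedding) (ε + inv 1 S) = Ex.s S ε
    rw [inv_one', add_zero]
    show Ex.s (S.map (Function.Embedding.refl _)) ε = Ex.s S ε
    rw [Finset.map_refl]
  | x i => rfl
  | u j => rfl
  | q t a => rfl
  | h => rfl

/-- The action as a bijection. -/
def eactE (π : Equiv.Perm (Fin r)) : Ex m r ≃ Ex m r where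
  toFun := eact π
  invFun := eact π⁻¹
  left_inv v := by rw [eact_comp, inv_mul_cancel, eact_one]
  right_inv v := by rw [eact_comp, mul_inv_cancel, eact_one]

theorem erel_act (π ρ : Equiv.Perm (Fin r)) (u v : Ex m r) (h : erel ρ u v) :
    erel (π * ρ) (eact π u) (eact π v) := by
  cases u with
  | s S ε =>
    cases v with
    | s T δ =>
      obtain ⟨i, hi, rfl, rfl⟩ := h
      refine ⟨π i, ?_, ?_, ?_⟩
      · rw [Finset.mem_map]
        rintro ⟨a, ha, h⟩
        exact hi (π.injective h ▸ ha)
      · rw [Finset.map_insert]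
        rfl
      · rw [inv_insert _ _ _ hi]
        have := two_mul_z (up S i)
        linear_combination this
    | x i => exact Finset.mem_map_of_mem _ h
    | u j => exact h.elim
    | q t a => exact h.elim
    | h => exact h.elim
  | x i =>
    cases v with
    | s T δ => exact h.elim
    | x i => exact h.elim
    | u j =>
      have h1 : ρ j = i := h
      show π (ρ j) = π i
      rw [h1]
    | q t a => exact h.elim
    | h => exact h.elim
  | u j => cases v <;> exact h.elim
  | q t a => cases v <;> exact h.elim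
  | h => cases v <;> exact h.elim

theorem exg_act (π ρ : Equiv.Perm (Fin r)) (u v : Ex m r) :
    (exg m ρ).Adj u v ↔ (exg m (π * ρ)).Adj (eact π u) (eact π v) := by
  have key : ∀ u v : Ex m r, erel ρ u v ↔ erel (π * ρ) (eact π u) (eact π v) := by
    intro u v
    constructor
    · exact erel_act π ρ u v
    · intro h
      have := erel_act π⁻¹ (π * ρ) _ _ h
      rw [eact_comp, eact_comp, inv_mul_cancel, eact_one, eact_one, ← mul_assoc, inv_mul_cancel,
        one_mul] at this
      exact this
  show (erel ρ u v ∨ erel ρ v u) ↔ (erel (π * ρ) (eact π u) (eact π v) ∨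
    erel (π * ρ) (eact π v) (eact π u))
  rw [← key, ← key]

theorem elb_act {p : ℕ} (π : Equiv.Perm (Fin r)) (v : Ex m r) :
    elb m r p (eact π v) = elb m r p v := by
  cases v with
  | s S ε =>
    show (if S.map π.toEmbedding = ∅ ∧ ε + inv π S = 0 then 10 + r + 2 * m + p else 0) =
      (if S = ∅ ∧ ε = 0 then 10 + r + 2 * m + p else 0)
    by_cases hS : S = ∅
    · subst hS
      rw [Finset.map_empty, inv_empty, add_zero]
    · have h1 : S.map π.toEmbedding ≠ ∅ := fun h => hS (Finset.map_eq_empty.1 h)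
      rw [if_neg (fun h => h1 h.1), if_neg (fun h => hS h.1)]
  | x i => rfl
  | u j => rfl
  | q t a => rfl
  | h => rfl

/-- The graph. -/
def lg (m p : ℕ) (σ : Equiv.Perm (Fin r)) (x : MQ m → ZMod 2) :
    SimpleGraph (PV (glab m (elb m r p))) := gg (exg m σ) ext (elb m r p) x

variable {p : ℕ}

/-- Isomorphisms. -/
theorem lg_iso [NeZero m] (π ρ : Equiv.Perm (Fin r)) (x x' : MQ m → ZMod 2)
    (h : ∑ v, x v + ∑ v, x' v = inv π Finset.univ) :
    Nonempty ((lg m p ρ x : SimpleGraph (PV (glab m (elb m r p)))) ≃g lg m p (π * ρ) x') := by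
  classical
  obtain ⟨M, hM⟩ := bd_surj (x + x' + Pi.single (0 : MQ m) (inv π Finset.univ)) (by
    simp only [Pi.add_apply]
    rw [Finset.sum_add_distrib, Finset.sum_add_distrib, h, Finset.sum_pi_single']
    simp only [Finset.mem_univ, if_true]
    exact CharTwo.add_self_eq_zero _)
  refine gg_iso M (eactE π) (fun a => elb_act π a) ?_ (exg_act π ρ)
  intro v c a
  have h1 : c + x v + bd (msrc m) (mtgt m) M v + x' v =
      c + (Pi.single (0 : MQ m) (inv π Finset.univ) : MQ m → ZMod 2) v := by
    rw [hM, Pi.add_apply, Pi.add_apply]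
    have e1 := CharTwo.add_self_eq_zero (x v)
    have e2 := CharTwo.add_self_eq_zero (x' v)
    linear_combination e1 + e2
  rw [h1]
  show ext v c a ↔ ext v _ (eact π a)
  by_cases hv : v = 0
  · subst hv
    rw [Pi.single_eq_same]
    cases a with
    | s S ε =>
      show ((0 : MQ m) = 0 ∧ S = Finset.univ ∧ ε = c) ↔
        ((0 : MQ m) = 0 ∧ S.map π.toEmbedding = Finset.univ ∧
          ε + inv π S = c + inv π Finset.univ)
      constructor
      · rintro ⟨_, rfl, rfl⟩
        exact ⟨rfl, Finset.map_univ_equiv π, rfl⟩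
      · rintro ⟨_, h2, h3⟩
        have h4 : S = Finset.univ := by
          apply Finset.map_injective π.toEmbedding
          rw [h2]
          exact (Finset.map_univ_equiv π).symm
        subst h4
        exact ⟨rfl, rfl, add_right_cancel h3⟩
    | x i => exact Iff.rfl
    | u j => exact Iff.rfl
    | q t a => exact Iff.rfl
    | h =>
      show ((0 : MQ m) ≠ 0 ∧ c = 1) ↔ ((0 : MQ m) ≠ 0 ∧ c + _ = 1)
      constructor
      · rintro ⟨h, _⟩
        exact absurd rfl h
      · rintro ⟨h, _⟩
        exact absurd rfl h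
  · rw [Pi.single_eq_of_ne hv, add_zero]
    cases a with
    | s S ε =>
      show (v = 0 ∧ S = Finset.univ ∧ ε = c) ↔
        (v = 0 ∧ S.map π.toEmbedding = Finset.univ ∧ ε + inv π S = c)
      constructor
      · rintro ⟨h, _⟩
        exact absurd h hv
      · rintro ⟨h, _⟩
        exact absurd h hv
    | x i => exact Iff.rfl
    | u j => exact Iff.rfl
    | q t a => exact Iff.rfl
    | h => exact Iff.rfl

theorem ext_ne [NeZero m] (v : MQ m) : ∃ a : Ex m r, ¬ (ext v 0 a ↔ ext v 1 a) := by
  have h01 : (0 : ZMod 2) ≠ 1 := by decide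
  by_cases hv : v = 0
  · refine ⟨Ex.s Finset.univ 0, fun h => ?_⟩
    have h1 : ext v 0 (Ex.s (Finset.univ : Finset (Fin r)) 0) := ⟨hv, rfl, rfl⟩
    exact h01 ((h.1 h1).2.2)
  · refine ⟨Ex.h, fun h => ?_⟩
    have h1 : ext v 1 (Ex.h : Ex m r) := ⟨hv, rfl⟩
    exact h01 ((h.2 h1).2)

theorem lg_wl [NeZero m] {K j : ℕ} (hK : 6400 * K ≤ m ^ 2) (hj : 8 * (j + 1) ≤ K)
    (σ : Equiv.Perm (Fin r)) (x x' : MQ m → ZMod 2) :
    Pool.Agent.W185.SRG.WLEquivalent j (lg m p σ x) (lg m p σ x') :=
  gg_wl ext_ne hK hj x x'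

/-! ## Rigidity -/

theorem lab_ge (a : Ex m r) (ha : elb m r p a ≠ 0) : 9 ≤ elb m r p a := by
  cases a with
  | s S ε =>
    by_cases h : S = ∅ ∧ ε = 0
    · show 9 ≤ if S = ∅ ∧ ε = 0 then 10 + r + 2 * m + p else 0
      rw [if_pos h]
      omega
    · exact absurd (show (if S = ∅ ∧ ε = 0 then 10 + r + 2 * m + p else 0) = 0 from if_neg h) ha
  | x i => exact absurd rfl ha
  | u j =>
    show 9 ≤ 9 + j.1
    omega
  | q t a =>
    show 9 ≤ 9 + r + 2 * a.val + t.1
    omega
  | h =>
    show 9 ≤ 9 + r + 2 * m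
    omega

theorem lab_inj [NeZero m] (a : Ex m r) (ha : elb m r p a ≠ 0) (w : Gx m (Ex m r))
    (hw : glab m (elb m r p) w = elb m r p a) : w = Gx.ex a := by
  have h9 := lab_ge a ha
  cases w with
  | fb v S =>
    have h1 : glab m (elb m r p) (Gx.fb v S) = 0 := rfl
    omega
  | ou e c =>
    have h1 : glab m (elb m r p) (Gx.ou e c) = e.1.1 + 1 := rfl
    have h2 := e.1.2
    omega
  | nn e c =>
    have h1 : glab m (elb m r p) (Gx.nn e c) = e.1.1 + 5 := rfl
    have h2 := e.1.2
    omega
  | ex b =>
    congr 1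
    have hw' : elb m r p b = elb m r p a := hw
    have hb : elb m r p b ≠ 0 := by rw [hw']; exact ha
    have key : ∀ S ε, elb m r p (Ex.s S ε) ≠ 0 → S = ∅ ∧ ε = 0 ∧
        elb m r p (Ex.s S ε) = 10 + r + 2 * m + p := by
      intro S ε h
      by_cases h1 : S = ∅ ∧ ε = 0
      · exact ⟨h1.1, h1.2, if_pos h1⟩
      · exact absurd (show (if S = ∅ ∧ ε = 0 then 10 + r + 2 * m + p else 0) = 0 from
          if_neg h1) h
    cases a with
    | s S ε =>
      obtain ⟨rfl, rfl, h2⟩ := key S ε ha
      rw [h2] at hw'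
      cases b with
      | s T δ =>
        obtain ⟨rfl, rfl, _⟩ := key T δ hb
        rfl
      | x i => exact absurd rfl hb
      | u j =>
        have h3 : 9 + j.1 = 10 + r + 2 * m + p := hw'
        have := j.2
        omega
      | q t a =>
        have h3 : 9 + r + 2 * a.val + t.1 = 10 + r + 2 * m + p := hw'
        have h4 := ZMod.val_lt a
        have := t.2
        omega
      | h =>
        have h3 : 9 + r + 2 * m = 10 + r + 2 * m + p := hw'
        omega
    | x i => exact absurd rfl ha
    | u j =>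
      have e0 : elb m r p (Ex.u j) = 9 + j.1 := rfl
      rw [e0] at hw'
      have hj := j.2
      cases b with
      | s T δ =>
        obtain ⟨_, _, h2⟩ := key T δ hb
        omega
      | x i => exact absurd rfl hb
      | u j' =>
        have h3 : 9 + j'.1 = 9 + j.1 := hw'
        have h4 : j' = j := Fin.ext (by omega)
        rw [h4]
      | q t a =>
        have h3 : 9 + r + 2 * a.val + t.1 = 9 + j.1 := hw'
        omega
      | h =>
        have h3 : 9 + r + 2 * m = 9 + j.1 := hw'
        omega
    | q t a =>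
      have e0 : elb m r p (Ex.q t a) = 9 + r + 2 * a.val + t.1 := rfl
      rw [e0] at hw'
      have ht := t.2
      have hva := ZMod.val_lt a
      cases b with
      | s T δ =>
        obtain ⟨_, _, h2⟩ := key T δ hb
        omega
      | x i => exact absurd rfl hb
      | u j' =>
        have h3 : 9 + j'.1 = 9 + r + 2 * a.val + t.1 := hw'
        have h4 := j'.2
        omega
      | q t' a' =>
        have h3 : 9 + r + 2 * a'.val + t'.1 = 9 + r + 2 * a.val + t.1 := hw'
        have h4 := t'.2
        have h5 : a'.val = a.val := by omega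
        have h6 : t'.1 = t.1 := by omega
        rw [ZMod.val_injective m h5, Fin.ext h6]
      | h =>
        have h3 : 9 + r + 2 * m = 9 + r + 2 * a.val + t.1 := hw'
        omega
    | h =>
      have e0 : elb m r p (Ex.h : Ex m r) = 9 + r + 2 * m := rfl
      rw [e0] at hw'
      cases b with
      | s T δ =>
        obtain ⟨_, _, h2⟩ := key T δ hb
        omega
      | x i => exact absurd rfl hb
      | u j' =>
        have h3 : 9 + j'.1 = 9 + r + 2 * m := hw'
        have h4 := j'.2
        omega
      | q t' a' =>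
        have h3 : 9 + r + 2 * a'.val + t'.1 = 9 + r + 2 * m := hw'
        have h4 := t'.2
        have h5 := ZMod.val_lt a'
        omega
      | h => rfl

/-- Each vertex of the core has two neighbours. -/
theorem two_lg [NeZero m] (hr : 1 < r) (σ : Equiv.Perm (Fin r)) (x : MQ m → ZMod 2) :
    Two (core (exg m σ) ext x) (glab m (elb m r p)) := by
  have hleaf : ∀ a : Ex m r, 9 ≤ elb m r p a → ∃ b b' : PV (glab m (elb m r p)), b ≠ b' ∧
      (PG (core (exg m σ) ext x) (glab m (elb m r p))).Adj (Sum.inl (Gx.ex a)) b ∧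
      (PG (core (exg m σ) ext x) (glab m (elb m r p))).Adj (Sum.inl (Gx.ex a)) b' := by
    intro a h9
    refine ⟨Sum.inr ⟨(Gx.ex a, 0), by show 0 < elb m r p a; omega⟩,
      Sum.inr ⟨(Gx.ex a, 1), by show 1 < elb m r p a; omega⟩, ?_, rfl, rfl⟩
    intro h1
    have h2 : 0 = 1 := congrArg
      (fun z : {z : Gx m (Ex m r) × ℕ // z.2 < glab m (elb m r p) z.1} => z.1.2)
      (Sum.inr_injective h1)
    exact absurd h2 (by decide)
  intro u
  cases u with
  | fb v S =>
    refine ⟨Sum.inl (Gx.ex (Ex.q 0 v.1)), Sum.inl (Gx.ex (Ex.q 1 v.2)), ?_, ?_, ?_⟩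
    · intro h
      have h1 := Sum.inl_injective h
      injection h1 with h2
      injection h2 with h3
      exact absurd h3 (by decide)
    · exact Or.inl (Or.inl ⟨rfl, rfl⟩)
    · exact Or.inl (Or.inr ⟨rfl, rfl⟩)
  | ou e c =>
    refine ⟨Sum.inl (Gx.nn e c), Sum.inr ⟨(Gx.ou e c, 0), Nat.succ_pos _⟩, ?_, ?_, ?_⟩
    · intro h
      cases h
    · exact Or.inl ⟨rfl, rfl⟩
    · exact rfl
  | nn e c =>
    refine ⟨Sum.inl (Gx.ou e c), Sum.inr ⟨(Gx.nn e c, 0), Nat.succ_pos _⟩, ?_, ?_, ?_⟩
    · intro h
      cases h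
    · exact Or.inr ⟨rfl, rfl⟩
    · exact rfl
  | ex a =>
    cases a with
    | s S ε =>
      -- two neighbours in the cube
      have hnb : ∀ i : Fin r, ∃ T δ, (i ∈ T ↔ i ∉ S) ∧ (∀ j, j ≠ i → (j ∈ T ↔ j ∈ S)) ∧
          (exg m σ).Adj (Ex.s S ε) (Ex.s T δ) := by
        intro i
        by_cases h : i ∈ S
        · refine ⟨S.erase i, ε + up (S.erase i) i, by simp [h], ?_, Or.inr ⟨i, by simp, ?_, ?_⟩⟩
          · intro j hj
            simp [hj]
          · rw [Finset.insert_erase h]
          · rw [add_assoc, two_mul_z, add_zero]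
        · refine ⟨insert i S, ε + up S i, by simp [h], ?_, Or.inl ⟨i, h, rfl, rfl⟩⟩
          intro j hj
          simp [hj]
      obtain ⟨T, δ, hT1, hT2, hT3⟩ := hnb ⟨0, by omega⟩
      obtain ⟨T', δ', hT1', hT2', hT3'⟩ := hnb ⟨1, hr⟩
      refine ⟨Sum.inl (Gx.ex (Ex.s T δ)), Sum.inl (Gx.ex (Ex.s T' δ')), ?_, Or.inl hT3,
        Or.inl hT3'⟩
      intro h
      have h1 := Sum.inl_injective h
      injection h1 with h2
      injection h2 with h4
      have h5 := hT2' ⟨0, by omega⟩ (by simp [Fin.ext_iff])
      rw [← h4, hT1] at h5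
      exact (not_iff_self h5).elim
    | x i =>
      refine ⟨Sum.inl (Gx.ex (Ex.s {i} 0)), Sum.inl (Gx.ex (Ex.s {i} 1)), ?_, ?_, ?_⟩
      · intro h
        have h1 := Sum.inl_injective h
        injection h1 with h2
        injection h2 with _ h4
        exact absurd h4 (by decide)
      · exact Or.inr (Or.inl (Finset.mem_singleton_self i))
      · exact Or.inr (Or.inl (Finset.mem_singleton_self i))
    | u j => exact hleaf _ (lab_ge _ (by show 9 + j.1 ≠ 0; omega))
    | q t a => exact hleaf _ (lab_ge _ (by show 9 + r + 2 * a.val + t.1 ≠ 0; omega))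
    | h => exact hleaf _ (lab_ge _ (by show 9 + r + 2 * m ≠ 0; omega))

/-- The graphs with the identity permutation and different sums of bits are not isomorphic. -/
theorem lg_not_iso [NeZero m] (hr : 1 < r) (x x' : MQ m → ZMod 2)
    (hx : ∑ v, x v ≠ ∑ v, x' v) :
    ¬ Nonempty (lg m p (1 : Equiv.Perm (Fin r)) x ≃g lg m p (1 : Equiv.Perm (Fin r)) x') := by
  classical
  rintro ⟨ψ⟩
  obtain ⟨φ, hinj, hlab, hadj⟩ := exists_core (two_lg hr 1 x) (two_lg hr 1 x') ψ
  refine hx (sum_eq (lb := elb m r p) ext_ne x x' φ hinj hlab hadj ?_ ?_)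
  all_goals
    have hfix : ∀ a : Ex m r, elb m r p a ≠ 0 → φ (Gx.ex a) = Gx.ex a := fun a ha =>
      lab_inj a ha _ (hlab _)
    have hq : ∀ t a, φ (Gx.ex (Ex.q t a)) = Gx.ex (Ex.q t a) := fun t a =>
      hfix _ (by show 9 + r + 2 * a.val + t.1 ≠ 0; omega)
    have hu : ∀ j, φ (Gx.ex (Ex.u j)) = Gx.ex (Ex.u j) := fun j =>
      hfix _ (by show 9 + j.1 ≠ 0; omega)
    have hh : φ (Gx.ex Ex.h) = Gx.ex Ex.h := hfix _ (by show 9 + r + 2 * m ≠ 0; omega)
    -- neighbours of the hubs of rows
    have hqn : ∀ (y : MQ m → ZMod 2) (t : Fin 2) (a : ZMod m) (w : Gx m (Ex m r)),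
        (core (exg m 1) ext y).Adj w (Gx.ex (Ex.q t a)) → ∃ v S, w = Gx.fb v S ∧
          ((t = 0 ∧ a = v.1) ∨ (t = 1 ∧ a = v.2)) := by
      intro y t a w h
      cases w with
      | fb v S =>
        rcases h with h | h
        · exact ⟨v, S, rfl, h⟩
        · exact h.elim
      | ou e c => exact (h.elim id id : False).elim
      | nn e c => exact (h.elim id id : False).elim
      | ex b =>
        exfalso
        cases b with
        | s T δ => exact (h.elim (fun h => h.elim id id) (fun h => h.elim id id) : False)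
        | x i => exact (h.elim (fun h => h.elim id id) (fun h => h.elim id id) : False)
        | u j => exact (h.elim (fun h => h.elim id id) (fun h => h.elim id id) : False)
        | q t' a' => exact (h.elim (fun h => h.elim id id) (fun h => h.elim id id) : False)
        | h => exact (h.elim (fun h => h.elim id id) (fun h => h.elim id id) : False)
    have hfb : ∀ v S, ∃ S', φ (Gx.fb v S) = Gx.fb v S' := by
      intro v S
      have h1 := (hadj (Gx.fb v S) (Gx.ex (Ex.q 0 v.1))).2 (Or.inl (Or.inl ⟨rfl, rfl⟩))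
      have h2 := (hadj (Gx.fb v S) (Gx.ex (Ex.q 1 v.2))).2 (Or.inl (Or.inr ⟨rfl, rfl⟩))
      rw [hq] at h1 h2
      obtain ⟨v', S', hv', h3⟩ := hqn x' _ _ _ h1
      obtain ⟨v'', S'', hv'', h4⟩ := hqn x' _ _ _ h2
      rw [hv'] at hv''
      injection hv'' with hv1 hv2
      subst hv1
      have e1 : v.1 = v'.1 := by
        rcases h3 with h3 | h3
        · exact h3.2
        · exact absurd h3.1 (by decide)
      have e2 : v.2 = v'.2 := by
        rcases h4 with h4 | h4
        · exact absurd h4.1 (by decide)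
        · exact h4.2
      exact ⟨S', by rw [hv', show v' = v from Prod.ext e1.symm e2.symm]⟩
  · -- the extra vertices are fixed
    have hexex : ∀ a : Ex m r, elb m r p a = 0 → ∃ b, elb m r p b = 0 ∧
        φ (Gx.ex a) = Gx.ex b := by
      intro a ha
      have h0 := hlab (Gx.ex a)
      have h0' : glab m (elb m r p) (Gx.ex a) = elb m r p a := rfl
      rw [h0', ha] at h0
      cases hw : φ (Gx.ex a) with
      | fb v S =>
        exfalso
        have h1 : (core (exg m 1) ext x').Adj (φ (Gx.ex a)) (φ (Gx.ex (Ex.q 0 v.1))) := by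
          rw [hw, hq]
          exact Or.inl (Or.inl ⟨rfl, rfl⟩)
        rw [hadj] at h1
        obtain ⟨v', S', h2, _⟩ := hqn x _ _ _ h1
        cases h2
      | ou e c =>
        rw [hw] at h0
        exact absurd (show e.1.1 + 1 = 0 from h0) (Nat.succ_ne_zero _)
      | nn e c =>
        rw [hw] at h0
        exact absurd (show e.1.1 + 5 = 0 from h0) (Nat.succ_ne_zero _)
      | ex b =>
        rw [hw] at h0
        exact ⟨b, h0, rfl⟩
    have hexadj : ∀ (y : MQ m → ZMod 2) (a b : Ex m r),
        (core (exg m 1) ext y).Adj (Gx.ex a) (Gx.ex b) ↔ (exg m 1).Adj a b := by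
      intro y a b
      constructor
      · rintro (h | h)
        · exact h
        · exact SimpleGraph.Adj.symm h
      · intro h
        exact Or.inl h
    have hx : ∀ i, φ (Gx.ex (Ex.x i)) = Gx.ex (Ex.x i) := by
      intro i
      obtain ⟨b, hb0, hb⟩ := hexex (Ex.x i) rfl
      have h1 : (core (exg m 1) ext x').Adj (φ (Gx.ex (Ex.x i))) (φ (Gx.ex (Ex.u i))) := by
        rw [hadj, hexadj]
        exact Or.inl rfl
      rw [hb, hu, hexadj] at h1
      rw [hb]
      cases b with
      | s T δ => exact (h1.elim id id : False).elim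
      | x j =>
        rcases h1 with h1 | h1
        · have h2 : (1 : Equiv.Perm (Fin r)) i = j := h1
          rw [← h2]
          rfl
        · exact h1.elim
      | u j => exact (h1.elim id id : False).elim
      | q t a => exact (h1.elim id id : False).elim
      | h => exact (h1.elim id id : False).elim
    have hs : ∀ S ε, ∃ δ, φ (Gx.ex (Ex.s S ε)) = Gx.ex (Ex.s S δ) := by
      intro S ε
      by_cases h0 : elb m r p (Ex.s S ε) = 0
      · obtain ⟨b, hb0, hb⟩ := hexex (Ex.s S ε) h0
        have h1 : ∀ i, (exg m 1).Adj b (Ex.x i) ↔ i ∈ S := by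
          intro i
          rw [← hexadj x', ← hb, ← hx i, hadj, hexadj]
          constructor
          · rintro (h | h)
            · exact h
            · exact h.elim
          · intro h
            exact Or.inl h
        cases b with
        | s T δ =>
          have h2 : T = S := by
            ext i
            rw [← h1]
            constructor
            · intro h
              exact Or.inl h
            · rintro (h | h)
              · exact h
              · exact h.elim
          exact ⟨δ, by rw [hb, h2]⟩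
        | x j =>
          exfalso
          rw [← hx j] at hb
          have h2 := hinj hb
          injection h2 with h3
          cases h3
        | u j => exact absurd hb0 (by show 9 + j.1 ≠ 0; omega)
        | q t a => exact absurd hb0 (by show 9 + r + 2 * a.val + t.1 ≠ 0; omega)
        | h => exact absurd hb0 (by show 9 + r + 2 * m ≠ 0; omega)
      · exact ⟨ε, hfix _ h0⟩
    choose d hd using hs
    have hdinj : ∀ S ε ε', d S ε = d S ε' → ε = ε' := by
      intro S ε ε' h
      have h1 : φ (Gx.ex (Ex.s S ε)) = φ (Gx.ex (Ex.s S ε')) := by rw [hd, hd, h]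
      have h2 := hinj h1
      injection h2 with h3
      injection h3
    have key : ∀ S : Finset (Fin r), ∀ ε, d S ε = ε := by
      intro S
      induction S using Finset.induction_on with
      | empty =>
        have h0 : d ∅ 0 = 0 := by
          have h1 := hfix (Ex.s ∅ 0) (by
            show (if (∅ : Finset (Fin r)) = ∅ ∧ (0 : ZMod 2) = 0 then
              10 + r + 2 * m + p else 0) ≠ 0
            rw [if_pos ⟨rfl, rfl⟩]
            omega)
          rw [hd] at h1
          injection h1 with h2
          injection h2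
        intro ε
        have h1 := hdinj ∅ ε 0
        rw [h0] at h1
        have h2 : ∀ a b : ZMod 2, (a = 0 → b = 0) → (b = 0 → a = 0) → a = b := by decide
        refine h2 _ _ h1 ?_
        rintro rfl
        exact h0
      | insert i S hi ih =>
        intro ε
        have h1 : (core (exg m 1) ext x').Adj (φ (Gx.ex (Ex.s S (ε + up S i))))
            (φ (Gx.ex (Ex.s (insert i S) ε))) := by
          rw [hadj, hexadj]
          refine Or.inl ⟨i, hi, rfl, ?_⟩
          rw [add_assoc, two_mul_z, add_zero]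
        rw [hd, hd, ih, hexadj] at h1
        rcases h1 with ⟨j, hj, hT, hδ⟩ | ⟨j, hj, hT, hδ⟩
        · have hji : j = i := by
            have h2 : j ∈ insert i S := by
              rw [hT]
              exact Finset.mem_insert_self _ _
            rcases Finset.mem_insert.1 h2 with h3 | h3
            · exact h3
            · exact absurd h3 hj
          subst hji
          rw [hδ, add_assoc, two_mul_z, add_zero]
        · exfalso
          apply hi
          rw [hT]
          exact Finset.mem_insert_of_mem (Finset.mem_insert_self i S)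
    intro a
    cases a with
    | s S ε => rw [hd, key]
    | x i => exact hx i
    | u j => exact hu j
    | q t a => exact hq t a
    | h => exact hh
  · exact hfb

end Pool.Agent.Q210.LM
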