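import Pool.Agent.Q210.LM.Switch
import Pool.Agent.Q210.LM.Gadget
import Pool.Agent.Q210.SM.Main

set_option autoImplicit false

/-! # Local models with `c log n` states and high-dimensional Weisfeiler-Leman do not suffice -/

namespace Pool.Agent.Q210.LM

open Finset Pool.Agent.TH658.Dg Pool.Agent.H521R3.BI Pool.Agent.Q210.SM Pool.Agent.Q210.SP
  Pool.Agent.Q210.GC Pool.Agent.W185.SRG

section Family

variable {m r p k l : ℕ}

/-- The graphs of the permutations as a family of switchings. -/
def swf (m r p : ℕ) [NeZero m] : Sw (PV (glab m (elb m r p))) r where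
  X i := Sum.inl (Gx.ex (Ex.x i))
  U j := Sum.inl (Gx.ex (Ex.u j))
  T σ := lg m p σ 0
  Xinj := by
    intro i j h
    have h1 := Sum.inl_injective h
    injection h1 with h2
    injection h2
  Uinj := by
    intro i j h
    have h1 := Sum.inl_injective h
    injection h1 with h2
    injection h2
  ne i j := by
    intro h
    have h1 := Sum.inl_injective h
    injection h1 with h2
    cases h2
  adj σ i j := by
    constructor
    · rintro (h | h)
      · rcases h with h | h
        · exact h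
        · exact h.elim
      · rcases h with h | h
        · exact h.elim
        · exact h
    · intro h
      exact Or.inl (Or.inl h)
  same σ σ' e he := by
    have key : ∀ a b : Ex m r, (∀ i j, ¬ (a = Ex.x i ∧ b = Ex.u j)) →
        (erel σ a b ↔ erel σ' a b) := by
      intro a b hab
      cases a with
      | s S ε => cases b <;> exact Iff.rfl
      | x i =>
        cases b with
        | s S ε => exact Iff.rfl
        | x i => exact Iff.rfl
        | u j => exact absurd ⟨rfl, rfl⟩ (hab i j)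
        | q t a => exact Iff.rfl
        | h => exact Iff.rfl
      | u j => cases b <;> exact Iff.rfl
      | q t a => cases b <;> exact Iff.rfl
      | h => cases b <;> exact Iff.rfl
    induction e using Sym2.inductionOn with
    | _ u w =>
      show (lg m p σ 0).Adj u w ↔ (lg m p σ' 0).Adj u w
      rcases u with u | z
      · rcases w with w | z'
        · have hrel : ∀ u w : Gx m (Ex m r),
              (∀ i j, (s(Sum.inl u, Sum.inl w) : Sym2 (PV (glab m (elb m r p)))) ≠
                s(Sum.inl (Gx.ex (Ex.x i)), Sum.inl (Gx.ex (Ex.u j)))) →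
              (grel (exg m σ) ext 0 u w ↔ grel (exg m σ') ext 0 u w) := by
            intro u w hne
            cases u with
            | fb v S => cases w <;> exact Iff.rfl
            | ou e c => cases w <;> exact Iff.rfl
            | nn e c => cases w <;> exact Iff.rfl
            | ex a =>
              cases w with
              | fb v S => exact Iff.rfl
              | ou e c => exact Iff.rfl
              | nn e c => exact Iff.rfl
              | ex b =>
                show (erel σ a b ∨ erel σ b a) ↔ (erel σ' a b ∨ erel σ' b a)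
                rw [key a b, key b a]
                · rintro i j ⟨rfl, rfl⟩
                  exact hne i j Sym2.eq_swap
                · rintro i j ⟨rfl, rfl⟩
                  exact hne i j rfl
          show (grel (exg m σ) ext 0 u w ∨ grel (exg m σ) ext 0 w u) ↔
            (grel (exg m σ') ext 0 u w ∨ grel (exg m σ') ext 0 w u)
          rw [hrel u w he, hrel w u]
          intro i j h
          exact he i j (Sym2.eq_swap.trans h)
        · exact Iff.rfl
      · rcases w with w | z'
        · exact Iff.rfl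
        · exact Iff.rfl

theorem nv_lg [NeZero m] (hr1 : 1 < r) (hr : k ^ 2 * l < r)
    (s : Multiset (Fin k × Multiset (Fin l × Fin k))) :
    nv k l (lg m p (1 : Equiv.Perm (Fin r)) 0) s =
      nv k l (lg m p (1 : Equiv.Perm (Fin r)) (Pi.single 0 1)) s := by
  classical
  have hz := (swf m r p).signed (k := k) (l := l) hr s
  set A := nv k l (lg m p (1 : Equiv.Perm (Fin r)) 0) s with hA
  set B := nv k l (lg m p (1 : Equiv.Perm (Fin r)) (Pi.single 0 1)) s with hB
  have hs0 : ∑ v : MQ m, (0 : MQ m → ZMod 2) v = 0 := Finset.sum_eq_zero fun _ _ => rfl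
  have hs1 : ∑ v : MQ m, (Pi.single 0 1 : MQ m → ZMod 2) v = 1 := by
    rw [Finset.sum_pi_single']
    simp
  have hval : ∀ σ : Equiv.Perm (Fin r), nv k l ((swf m r p).T σ) s =
      if Equiv.Perm.sign σ = 1 then A else B := by
    intro σ
    show nv k l (lg m p σ 0) s = _
    by_cases h : Equiv.Perm.sign σ = 1
    · rw [if_pos h]
      obtain ⟨φ⟩ := lg_iso (p := p) σ 1 (0 : MQ m → ZMod 2) 0 (by
        rw [hs0, add_zero, (inv_eq_zero_iff hr1 σ).2 h])
      rw [mul_one] at φ
      exact (nv_iso φ s).symm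
    · rw [if_neg h]
      have h2 : inv σ Finset.univ = 1 := by
        have h3 : inv σ Finset.univ ≠ 0 := fun h4 => h ((inv_eq_zero_iff hr1 σ).1 h4)
        have h4 : ∀ a : ZMod 2, a ≠ 0 → a = 1 := by decide
        exact h4 _ h3
      obtain ⟨φ⟩ := lg_iso (p := p) σ 1 (Pi.single 0 1 : MQ m → ZMod 2) 0 (by
        rw [hs0, hs1, add_zero, h2])
      rw [mul_one] at φ
      exact (nv_iso φ s).symm
  have h01 : (⟨0, by omega⟩ : Fin r) ≠ ⟨1, hr1⟩ := by
    simp [Fin.ext_iff]
  have hsign : ∑ ρ : Equiv.Perm (Fin r), (Equiv.Perm.sign ρ : ℤ) * 1 = 0 :=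
    alt_sum h01 (fun _ => 1) (fun _ => rfl)
  have h4 : ∑ σ : Equiv.Perm (Fin r),
      (if Equiv.Perm.sign σ = 1 then ((A : ℤ) - B) else 0) = 0 := by
    have h5 : ∀ σ : Equiv.Perm (Fin r),
        (if Equiv.Perm.sign σ = 1 then ((A : ℤ) - B) else 0) =
        (Equiv.Perm.sign σ : ℤ) * (nv k l ((swf m r p).T σ) s : ℤ) -
          B * ((Equiv.Perm.sign σ : ℤ) * 1) := by
      intro σ
      rw [hval]
      rcases Int.units_eq_one_or (Equiv.Perm.sign σ) with h | h
      · rw [h]
        simp
      · rw [h]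
        simp
    simp only [h5]
    rw [Finset.sum_sub_distrib, ← Finset.mul_sum, hz, hsign]
    ring
  rw [← Finset.sum_filter, Finset.sum_const] at h4
  have h6 : (Finset.univ.filter (fun σ : Equiv.Perm (Fin r) =>
      Equiv.Perm.sign σ = 1)).card ≠ 0 := by
    rw [Finset.card_ne_zero]
    exact ⟨1, by simp⟩
  rw [nsmul_eq_mul] at h4
  rcases mul_eq_zero.1 h4 with h7 | h7
  · exact absurd (by exact_mod_cast h7) h6
  · have h8 : (A : ℤ) = B := by linarith
    exact_mod_cast h8

end Family

section Transport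

variable {k l n : ℕ}

theorem prod_views {V : Type} [Fintype V] {R : Type} [CommSemiring R] (G : SimpleGraph V)
    (f : V → Fin k) (c : G.edgeSet → Fin l) (h : Fin k → Multiset (Fin l × Fin k) → R) :
    ∏ v, h (f v) (around G f c v) = ((views G f c).map fun z => h z.1 z.2).prod := by
  unfold views
  rw [Multiset.map_map]
  rfl

open Classical in
theorem localModel_eq {V : Type} [Fintype V] {R : Type} [CommSemiring R] (G : SimpleGraph V)
    (h : Fin k → Multiset (Fin l × Fin k) → R) :
    localModel G h = ∑ z : (V → Fin k) × (G.edgeSet → Fin l),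
      ((views G z.1 z.2).map fun z => h z.1 z.2).prod := by
  unfold localModel
  rw [Fintype.sum_prod_type]
  exact Finset.sum_congr rfl fun f _ => Finset.sum_congr rfl fun c _ => prod_views G f c h

theorem models_eq {V : Type} [Fintype V] {G0 H0 : SimpleGraph V}
    {G H : SimpleGraph (Fin n)} (φG : G0 ≃g G) (φH : H0 ≃g H)
    (hnv : ∀ s, nv k l G0 s = nv k l H0 s) :
    (∃ Φ : ((Fin n → Fin k) × (G.edgeSet → Fin l)) ≃ ((Fin n → Fin k) × (H.edgeSet → Fin l)),
      ∀ z, views H (Φ z).1 (Φ z).2 = views G z.1 z.2) ∧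
    ∀ (R : Type) [CommSemiring R] (h : Fin k → Multiset (Fin l × Fin k) → R),
      localModel G h = localModel H h := by
  classical
  have hfib : ∀ s, Nat.card {z : (Fin n → Fin k) × (G.edgeSet → Fin l) //
      views G z.1 z.2 = s} = Nat.card {z : (Fin n → Fin k) × (H.edgeSet → Fin l) //
      views H z.1 z.2 = s} := by
    intro s
    rw [← nv_eq, ← nv_eq, ← nv_iso φG, ← nv_iso φH, hnv]
  obtain ⟨Φ, hΦ⟩ := exists_equiv_of_fibers
    (fun z : (Fin n → Fin k) × (G.edgeSet → Fin l) => views G z.1 z.2)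
    (fun z : (Fin n → Fin k) × (H.edgeSet → Fin l) => views H z.1 z.2) hfib
  refine ⟨⟨Φ, hΦ⟩, ?_⟩
  intro R _ h
  rw [localModel_eq, localModel_eq]
  refine @Fintype.sum_equiv _ _ _ (_) (_) _ Φ _ _ ?_
  intro z
  rw [hΦ z]

end Transport

section Count

variable (m r : ℕ) [NeZero m]

theorem elb_pad (p : ℕ) : ∑ a : Ex m r, elb m r p a = ∑ a : Ex m r, elb m r 0 a + p := by
  classical
  have h : ∀ a : Ex m r, elb m r p a = elb m r 0 a + if a = Ex.s ∅ 0 then p else 0 := by
    intro a
    cases a with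
    | s S ε =>
      show (if S = ∅ ∧ ε = 0 then 10 + r + 2 * m + p else 0) =
        (if S = ∅ ∧ ε = 0 then 10 + r + 2 * m + 0 else 0) + _
      by_cases h1 : S = ∅ ∧ ε = 0
      · obtain ⟨rfl, rfl⟩ := h1
        rw [if_pos ⟨rfl, rfl⟩, if_pos ⟨rfl, rfl⟩, if_pos rfl]
        ring
      · rw [if_neg h1, if_neg h1, if_neg]
        intro h2
        injection h2 with h3 h4
        exact h1 ⟨h3, h4⟩
    | x i =>
      rw [if_neg (by intro h; cases h)]
      rfl
    | u j =>
      rw [if_neg (by intro h; cases h)]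
      rfl
    | q t a =>
      rw [if_neg (by intro h; cases h)]
      rfl
    | h =>
      rw [if_neg (by intro h; cases h)]
      rfl
  rw [Finset.sum_congr rfl fun a _ => h a, Finset.sum_add_distrib, Finset.sum_ite_eq']
  simp

theorem card_Ex : Fintype.card (Ex m r) = 2 ^ r * 2 + (r + (r + (2 * m + 1))) := by
  rw [Fintype.card_congr (exEquiv m r)]
  simp only [Fintype.card_sum, Fintype.card_prod, ZMod.card, Fintype.card_fin,
    Fintype.card_finset, Fintype.card_unit]

theorem card_Gx : Fintype.card (Gx m (Ex m r)) = 272 * m ^ 2 + Fintype.card (Ex m r) := by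
  rw [Fintype.card_congr (gxEquiv m (Ex m r))]
  simp only [Fintype.card_sum, Fintype.card_prod, ZMod.card, Fintype.card_fun,
    Fintype.card_fin]
  ring

theorem sum_glab (p : ℕ) : ∃ t, (∑ u : Gx m (Ex m r), glab m (elb m r p) u =
    t + ∑ a : Ex m r, elb m r p a) ∧ t = ∑ a : ME m × ZMod 2, (a.1.1.1 + 1) +
      ∑ a : ME m × ZMod 2, (a.1.1.1 + 5) := by
  refine ⟨_, ?_, rfl⟩
  rw [← Equiv.sum_comp (gxEquiv m (Ex m r)).symm, Fintype.sum_sum_type, Fintype.sum_sum_type,
    Fintype.sum_sum_type]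
  have h1 : ∑ a : MQ m × (Pt → ZMod 2), glab m (elb m r p)
      ((gxEquiv m (Ex m r)).symm (Sum.inl a)) = 0 := Finset.sum_eq_zero fun a _ => rfl
  rw [h1, zero_add, ← add_assoc]
  rfl

theorem links_le : ∑ a : ME m × ZMod 2, (a.1.1.1 + 1) + ∑ a : ME m × ZMod 2, (a.1.1.1 + 5) ≤
    96 * m ^ 2 := by
  have h2 : ∑ a : ME m × ZMod 2, (a.1.1.1 + 1) ≤ 32 * m ^ 2 := by
    have h3 := Finset.sum_le_card_nsmul (univ : Finset (ME m × ZMod 2))
      (fun a => a.1.1.1 + 1) 4 (by
        intro a _
        show a.1.1.1 + 1 ≤ 4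
        have := a.1.1.2
        omega)
    rw [Finset.card_univ, smul_eq_mul] at h3
    simp only [Fintype.card_prod, ZMod.card, Fintype.card_fin] at h3
    refine h3.trans (le_of_eq ?_)
    ring
  have h4 : ∑ a : ME m × ZMod 2, (a.1.1.1 + 5) ≤ 64 * m ^ 2 := by
    have h3 := Finset.sum_le_card_nsmul (univ : Finset (ME m × ZMod 2))
      (fun a => a.1.1.1 + 5) 8 (by
        intro a _
        show a.1.1.1 + 5 ≤ 8
        have := a.1.1.2
        omega)
    rw [Finset.card_univ, smul_eq_mul] at h3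
    simp only [Fintype.card_prod, ZMod.card, Fintype.card_fin] at h3
    refine h3.trans (le_of_eq ?_)
    ring
  omega

theorem elb_le : ∑ a : Ex m r, elb m r 0 a ≤
    (10 + r + 2 * m) + (r * (9 + r) + (2 * m * (9 + r + 2 * m) + (9 + r + 2 * m))) := by
  classical
  rw [← Equiv.sum_comp (exEquiv m r).symm, Fintype.sum_sum_type, Fintype.sum_sum_type,
    Fintype.sum_sum_type, Fintype.sum_sum_type]
  have h1 : ∑ a : Finset (Fin r) × ZMod 2, elb m r 0 ((exEquiv m r).symm (Sum.inl a)) ≤
      10 + r + 2 * m := by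
    rw [Finset.sum_eq_single ((∅ : Finset (Fin r)), (0 : ZMod 2))]
    · show (if (∅ : Finset (Fin r)) = ∅ ∧ (0 : ZMod 2) = 0 then 10 + r + 2 * m + 0 else 0) ≤ _
      rw [if_pos ⟨rfl, rfl⟩]
      omega
    · rintro ⟨S, ε⟩ _ h
      show (if S = ∅ ∧ ε = 0 then 10 + r + 2 * m + 0 else 0) = 0
      rw [if_neg]
      rintro ⟨rfl, rfl⟩
      exact h rfl
    · intro h
      exact absurd (Finset.mem_univ _) h
  have h2 : ∑ a : Fin r, elb m r 0 ((exEquiv m r).symm (Sum.inr (Sum.inl a))) = 0 :=
    Finset.sum_eq_zero fun a _ => rfl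
  have h3 : ∑ a : Fin r, elb m r 0 ((exEquiv m r).symm (Sum.inr (Sum.inr (Sum.inl a)))) ≤
      r * (9 + r) := by
    have h3 := Finset.sum_le_card_nsmul (univ : Finset (Fin r))
      (fun a => elb m r 0 ((exEquiv m r).symm (Sum.inr (Sum.inr (Sum.inl a))))) (9 + r) (by
        intro a _
        show 9 + a.1 ≤ 9 + r
        have := a.2
        omega)
    rw [Finset.card_univ, smul_eq_mul, Fintype.card_fin] at h3
    exact h3
  have h4 : ∑ a : Fin 2 × ZMod m,
      elb m r 0 ((exEquiv m r).symm (Sum.inr (Sum.inr (Sum.inr (Sum.inl a))))) ≤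
      2 * m * (9 + r + 2 * m) := by
    have h3 := Finset.sum_le_card_nsmul (univ : Finset (Fin 2 × ZMod m))
      (fun a => elb m r 0 ((exEquiv m r).symm (Sum.inr (Sum.inr (Sum.inr (Sum.inl a))))))
      (9 + r + 2 * m) (by
        intro a _
        show 9 + r + 2 * a.2.val + a.1.1 ≤ 9 + r + 2 * m
        have h6 := ZMod.val_lt a.2
        have h7 := a.1.2
        omega)
    rw [Finset.card_univ, smul_eq_mul] at h3
    simp only [Fintype.card_prod, ZMod.card, Fintype.card_fin] at h3
    exact h3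
  have h5 : ∑ a : Unit,
      elb m r 0 ((exEquiv m r).symm (Sum.inr (Sum.inr (Sum.inr (Sum.inr a))))) =
      9 + r + 2 * m := by
    rw [Fintype.sum_unique]
    rfl
  omega

/-- The number of vertices without the padding. -/
theorem exists_base (hr : r ≤ m) : ∃ base : ℕ,
    (∀ p, Fintype.card (PV (glab m (elb m r p))) = base + p) ∧
    base ≤ 375 * m ^ 2 + 37 * m + 20 + 2 * 2 ^ r := by
  obtain ⟨t, ht, ht2⟩ := sum_glab m r 0
  refine ⟨Fintype.card (Gx m (Ex m r)) + (t + ∑ a : Ex m r, elb m r 0 a), ?_, ?_⟩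
  · intro p
    obtain ⟨t', ht', ht2'⟩ := sum_glab m r p
    rw [card_PV, ht', elb_pad, ht2', ← ht2]
    ring
  · have h1 := elb_le m r
    have h2 := links_le m
    rw [card_Gx, card_Ex]
    rw [← ht2] at h2
    have h3 : r * r ≤ m * m := Nat.mul_le_mul hr hr
    have h4 : m * r ≤ m * m := Nat.mul_le_mul_left m hr
    nlinarith

end Count

theorem main (n : ℕ) (hn : 320000000 ≤ n) :
    ∃ G H : SimpleGraph (Fin n), ¬ Nonempty (G ≃g H) ∧
      (∀ j : ℕ, 90000000 * j ≤ n → WLEquivalent j G H) ∧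
      ∀ k l : ℕ, k ^ 2 * l + 3 ≤ Nat.log 2 n →
        (∃ Φ : ((Fin n → Fin k) × (G.edgeSet → Fin l)) ≃
            ((Fin n → Fin k) × (H.edgeSet → Fin l)),
          ∀ z, views H (Φ z).1 (Φ z).2 = views G z.1 z.2) ∧
        ∀ (R : Type) [CommSemiring R] (h : Fin k → Multiset (Fin l × Fin k) → R),
          localModel G h = localModel H h := by
  classical
  obtain ⟨q, hq⟩ : ∃ q, q = Nat.sqrt (n / 80000000) := ⟨_, rfl⟩
  have hq1 : q * q ≤ n / 80000000 := by
    rw [hq]
    exact Nat.sqrt_le _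
  have hq2 : n / 80000000 < (q + 1) * (q + 1) := by
    rw [hq]
    exact Nat.lt_succ_sqrt _
  have hq3 : 2 ≤ q := by
    by_contra h
    have h1 : q + 1 ≤ 2 := by omega
    have h2 : (q + 1) * (q + 1) ≤ 2 * 2 := Nat.mul_le_mul h1 h1
    omega
  have hq4 : 80000000 * (q * q) ≤ n := by omega
  have hq5 : n < 80000000 * ((q + 1) * (q + 1)) := by omega
  have hq6 : 4 * ((q + 1) * (q + 1)) ≤ 9 * (q * q) := by nlinarith
  have hq7 : n < 180000000 * (q * q) := by omega
  obtain ⟨m, hm⟩ : ∃ m, m = 320 * q := ⟨_, rfl⟩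
  have : NeZero m := ⟨by omega⟩
  have hm2 : m ^ 2 = 102400 * (q * q) := by rw [hm]; ring
  have hn0 : n ≠ 0 := by omega
  have hlog1 : 28 ≤ Nat.log 2 n := by
    refine (Nat.le_log_iff_pow_le (by norm_num) hn0).2 ?_
    norm_num
    omega
  obtain ⟨r, hr⟩ : ∃ r, r = Nat.log 2 n - 2 := ⟨_, rfl⟩
  have hr1 : 1 < r := by omega
  have hpow : 2 ^ (r + 2) ≤ n := by
    rw [hr, show Nat.log 2 n - 2 + 2 = Nat.log 2 n by omega]
    exact Nat.pow_log_le_self 2 hn0
  have hpow2 : 4 * 2 ^ r ≤ n := by
    rw [pow_add] at hpow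
    omega
  have hrm : r ≤ m := by
    by_contra h
    have h1 : 320 * q < r := by omega
    have h2 : q < 2 ^ q := Nat.lt_two_pow_self
    have h3 : q * q ≤ 2 ^ q * 2 ^ q := Nat.mul_le_mul h2.le h2.le
    have h4 : 180000000 * (q * q) ≤ 2 ^ 28 * (2 ^ q * 2 ^ q) :=
      Nat.mul_le_mul (by norm_num) h3
    have h5 : 2 ^ 28 * (2 ^ q * 2 ^ q) = 2 ^ (28 + (q + q)) := by
      rw [pow_add, pow_add]
    have h6 : 2 ^ (28 + (q + q)) ≤ 2 ^ (r + 2) := Nat.pow_le_pow_right (by norm_num) (by omega)
    omega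
  obtain ⟨base, hb1, hb2⟩ := exists_base m r hrm
  have hb3 : base ≤ n := by
    have h1 : 37 * m + 20 ≤ m ^ 2 := by nlinarith
    omega
  have hcard : Fintype.card (PV (glab m (elb m r (n - base)))) = n := by
    rw [hb1]
    omega
  let e : PV (glab m (elb m r (n - base))) ≃ Fin n :=
    Fintype.equivOfCardEq (hcard.trans (Fintype.card_fin n).symm)
  have hs0 : ∑ v : MQ m, (0 : MQ m → ZMod 2) v = 0 := Finset.sum_eq_zero fun _ _ => rfl
  have hs1 : ∑ v : MQ m, (Pi.single 0 1 : MQ m → ZMod 2) v = 1 := by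
    rw [Finset.sum_pi_single']
    simp
  let G0 := lg m (n - base) (1 : Equiv.Perm (Fin r)) 0
  let H0 := lg m (n - base) (1 : Equiv.Perm (Fin r)) (Pi.single 0 1)
  let φG : G0 ≃g G0.map e.toEmbedding := SimpleGraph.Iso.map e _
  let φH : H0 ≃g H0.map e.toEmbedding := SimpleGraph.Iso.map e _
  refine ⟨G0.map e.toEmbedding, H0.map e.toEmbedding, ?_, ?_, ?_⟩
  · rintro ⟨ψ⟩
    refine lg_not_iso (m := m) (p := n - base) hr1 0 (Pi.single 0 1) ?_
      ⟨(φG.trans ψ).trans φH.symm⟩
    rw [hs0, hs1]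
    decide
  · intro j hj
    refine wle_trans (wle_symm (wle_iso φG j)) (wle_trans ?_ (wle_iso φH j))
    refine lg_wl (K := 16 * (q * q)) ?_ ?_ _ _ _
    · rw [hm2]
      omega
    · omega
  · intro k l hkl
    refine models_eq φG φH fun s => ?_
    exact nv_lg hr1 (by omega) s

end Pool.Agent.Q210.LM
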