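import Pool.Agent.Q210.LM.Defs

set_option autoImplicit false
set_option linter.unusedSectionVars false

/-! # Switchings which preserve all views -/

namespace Pool.Agent.Q210.LM

open Finset

variable {V : Type} [Fintype V] {k l r : ℕ}

theorem apply_inv' {r : ℕ} (σ : Equiv.Perm (Fin r)) (i : Fin r) : σ (σ⁻¹ i) = i :=
  σ.apply_symm_apply i

theorem inv_apply' {r : ℕ} (σ : Equiv.Perm (Fin r)) (i : Fin r) : σ⁻¹ (σ i) = i :=
  σ.symm_apply_apply i

/-! ## Colourings with support -/

/-- `c` is a colouring of the edges of `G`. -/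
def Supp (G : SimpleGraph V) (c : Sym2 V → Option (Fin l)) : Prop :=
  ∀ e, (c e).isSome ↔ e ∈ G.edgeSet

/-- What `v` sees. -/
def aroundO (f : V → Fin k) (c : Sym2 V → Option (Fin l)) (v : V) : Multiset (Fin l × Fin k) :=
  (univ : Finset V).val.filterMap fun w => (c s(v, w)).map fun a => (a, f w)

/-- All views. -/
def viewsO (f : V → Fin k) (c : Sym2 V → Option (Fin l)) :
    Multiset (Fin k × Multiset (Fin l × Fin k)) :=
  (univ : Finset V).val.map fun v => (f v, aroundO f c v)

open Classical in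
/-- Colourings of the edges as colourings with support. -/
noncomputable def suppEquiv (G : SimpleGraph V) :
    (G.edgeSet → Fin l) ≃ {c : Sym2 V → Option (Fin l) // Supp G c} where
  toFun c := ⟨fun e => if h : e ∈ G.edgeSet then some (c ⟨e, h⟩) else none, by
    intro e
    by_cases h : e ∈ G.edgeSet
    · simp [h]
    · simp [h]⟩
  invFun c e := (c.1 e.1).get ((c.2 e.1).2 e.2)
  left_inv c := by
    funext e
    simp
  right_inv c := by
    apply Subtype.ext
    funext e
    by_cases h : e ∈ G.edgeSet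
    · simp [h]
    · have h1 : ¬ (c.1 e).isSome := fun h2 => h ((c.2 e).1 h2)
      simp only [dif_neg h]
      cases hc : c.1 e with
      | none => rfl
      | some a =>
        rw [hc] at h1
        exact absurd rfl h1

theorem filterMap_dite {A : Type} [Fintype A] (p : A → Prop) [DecidablePred p] {B : Type}
    (q : {a // p a} → B) :
    (univ : Finset A).val.filterMap (fun a => if h : p a then some (q ⟨a, h⟩) else none) =
      (univ : Finset {a // p a}).val.map q := by
  have h1 : ((univ : Finset {a // p a}).map (Function.Embedding.subtype p)) =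
      univ.filter p := by
    ext a
    simp
  have h2 : (univ.filter p : Finset A).val =
      (univ : Finset {a // p a}).val.map (Subtype.val) := by
    rw [← h1, Finset.map_val]
    rfl
  have h3 : (univ : Finset A).val.filterMap
      (fun a => if h : p a then some (q ⟨a, h⟩) else none) =
      (univ.filter p : Finset A).val.filterMap
      (fun a => if h : p a then some (q ⟨a, h⟩) else none) := by
    rw [Finset.filter_val, Multiset.filterMap_filter]
    congr 1
    funext a
    by_cases h : p a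
    · simp [h]
    · simp [h]
  rw [h3, h2, Multiset.filterMap_map, ← Multiset.filterMap_eq_map]
  congr 1
  funext a
  simp [a.2]

theorem aroundO_suppEquiv (G : SimpleGraph V) (f : V → Fin k) (c : G.edgeSet → Fin l) (v : V) :
    aroundO f (suppEquiv G c).1 v = around G f c v := by
  classical
  unfold aroundO around
  rw [← filterMap_dite (fun w => w ∈ G.neighborSet v)
    (fun w : {w // w ∈ G.neighborSet v} => (c ⟨s(v, w.1), w.2⟩, f w.1))]
  congr 1
  funext w
  show ((if h : s(v, w) ∈ G.edgeSet then some (c ⟨s(v, w), h⟩) else none) : Option (Fin l)).map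
    (fun a => (a, f w)) = _
  by_cases h : s(v, w) ∈ G.edgeSet
  · have h' : w ∈ G.neighborSet v := h
    rw [dif_pos h, dif_pos h']
    rfl
  · have h' : ¬ w ∈ G.neighborSet v := h
    rw [dif_neg h, dif_neg h']
    rfl

/-- The number of configurations with given views. -/
noncomputable def nv (k l : ℕ) (G : SimpleGraph V) (s : Multiset (Fin k × Multiset (Fin l × Fin k))) :
    ℕ :=
  Nat.card {p : (V → Fin k) × (Sym2 V → Option (Fin l)) // Supp G p.2 ∧ viewsO p.1 p.2 = s}

theorem nv_eq (G : SimpleGraph V) (s : Multiset (Fin k × Multiset (Fin l × Fin k))) :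
    nv k l G s = Nat.card {p : (V → Fin k) × (G.edgeSet → Fin l) // views G p.1 p.2 = s} := by
  unfold nv
  symm
  refine Nat.card_congr ?_
  refine
    { toFun := fun p => ⟨(p.1.1, (suppEquiv G p.1.2).1), (suppEquiv G p.1.2).2, ?_⟩
      invFun := fun p => ⟨(p.1.1, (suppEquiv G).symm ⟨p.1.2, p.2.1⟩), ?_⟩
      left_inv := ?_
      right_inv := ?_ }
  · refine Eq.trans ?_ p.2
    unfold views viewsO
    congr 1
    funext v
    show (p.1.1 v, aroundO p.1.1 (suppEquiv G p.1.2).1 v) = (p.1.1 v, around G p.1.1 p.1.2 v)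
    rw [aroundO_suppEquiv]
  · refine Eq.trans ?_ p.2.2
    unfold views viewsO
    congr 1
    funext v
    show (p.1.1 v, around G p.1.1 ((suppEquiv G).symm ⟨p.1.2, p.2.1⟩) v) =
      (p.1.1 v, aroundO p.1.1 p.1.2 v)
    rw [← aroundO_suppEquiv, Equiv.apply_symm_apply]
  · intro p
    apply Subtype.ext
    apply Prod.ext
    · rfl
    · exact (suppEquiv G).symm_apply_apply _
  · intro p
    apply Subtype.ext
    apply Prod.ext
    · rfl
    · show ((suppEquiv G) ((suppEquiv G).symm ⟨p.1.2, p.2.1⟩)).1 = p.1.2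
      rw [Equiv.apply_symm_apply]

theorem filterMap_univ_equiv {A A' B : Type} [Fintype A] [Fintype A'] (β : A ≃ A')
    (g : A → Option B) (g' : A' → Option B) (h : ∀ a, g' (β a) = g a) :
    (univ : Finset A').val.filterMap g' = (univ : Finset A).val.filterMap g := by
  have h1 : (univ : Finset A') = (univ : Finset A).map β.toEmbedding := by simp
  rw [h1, Finset.map_val, Multiset.filterMap_map]
  congr 1
  funext a
  exact h a

theorem nv_iso {V' : Type} [Fintype V'] {G : SimpleGraph V} {H : SimpleGraph V'} (φ : G ≃g H)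
    (s : Multiset (Fin k × Multiset (Fin l × Fin k))) : nv k l G s = nv k l H s := by
  unfold nv
  refine Nat.card_congr ?_
  let s2 : Sym2 V ≃ Sym2 V' :=
    { toFun := Sym2.map φ
      invFun := Sym2.map φ.symm
      left_inv := fun z => by
        rw [Sym2.map_map]
        simp
      right_inv := fun z => by
        rw [Sym2.map_map]
        simp }
  have hs2 : ∀ e : Sym2 V, s2 e ∈ H.edgeSet ↔ e ∈ G.edgeSet := by
    intro e
    induction e using Sym2.inductionOn with
    | _ u v => exact φ.map_adj_iff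
  refine (Equiv.prodCongr (Equiv.arrowCongr φ.toEquiv (Equiv.refl (Fin k)))
    (Equiv.arrowCongr s2 (Equiv.refl (Option (Fin l))))).subtypeEquiv ?_
  rintro ⟨f, c⟩
  have hf : ∀ v, (Equiv.arrowCongr φ.toEquiv (Equiv.refl (Fin k))) f (φ v) = f v := by
    intro v
    show f (φ.toEquiv.symm (φ.toEquiv v)) = f v
    rw [Equiv.symm_apply_apply]
  have hc : ∀ e, (Equiv.arrowCongr s2 (Equiv.refl (Option (Fin l)))) c (s2 e) = c e := by
    intro e
    show c (s2.symm (s2 e)) = c e
    rw [Equiv.symm_apply_apply]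
  set f' := (Equiv.arrowCongr φ.toEquiv (Equiv.refl (Fin k))) f with hf'
  set c' := (Equiv.arrowCongr s2 (Equiv.refl (Option (Fin l)))) c with hc'
  have h1 : Supp G c ↔ Supp H c' := by
    constructor
    · intro h e
      obtain ⟨e, rfl⟩ := s2.surjective e
      rw [hc, hs2]
      exact h e
    · intro h e
      rw [← hc, ← hs2]
      exact h (s2 e)
  have h2 : viewsO f c = viewsO f' c' := by
    unfold viewsO
    have h3 : (univ : Finset V') = (univ : Finset V).map φ.toEquiv.toEmbedding := by simp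
    rw [h3, Finset.map_val, Multiset.map_map]
    congr 1
    funext v
    show (f v, aroundO f c v) = (f' (φ v), aroundO f' c' (φ v))
    rw [hf]
    congr 1
    unfold aroundO
    symm
    refine filterMap_univ_equiv φ.toEquiv _ _ ?_
    intro w
    show (c' s(φ v, φ w)).map (fun a => (a, f' (φ w))) = (c s(v, w)).map (fun a => (a, f w))
    have h4 : c' s(φ v, φ w) = c s(v, w) := hc s(v, w)
    rw [h4, hf]
  have h5 : viewsO f c = s ↔ viewsO f' c' = s := by rw [h2]
  exact and_congr h1 h5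

/-! ## Switchings -/

/-- A family of graphs which differ in a perfect matching between two sets of `r` vertices. -/
structure Sw (V : Type) (r : ℕ) where
  X : Fin r → V
  U : Fin r → V
  T : Equiv.Perm (Fin r) → SimpleGraph V
  Xinj : Function.Injective X
  Uinj : Function.Injective U
  ne : ∀ i j, X i ≠ U j
  adj : ∀ σ i j, (T σ).Adj (X i) (U j) ↔ σ j = i
  same : ∀ σ σ' e, (∀ i j, e ≠ s(X i, U j)) → (e ∈ (T σ).edgeSet ↔ e ∈ (T σ').edgeSet)

namespace Sw

variable [DecidableEq V] (D : Sw V r)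

open Classical in
/-- The switching of the pairs. -/
noncomputable def sw (a b : Fin r) (e : Sym2 V) : Sym2 V :=
  if ∃ j, D.U j ∈ e then Sym2.map (Equiv.swap (D.X a) (D.X b)) e else e

theorem sw_pos {a b : Fin r} {v : V} (j : Fin r) :
    D.sw a b s(v, D.U j) = s(Equiv.swap (D.X a) (D.X b) v, D.U j) := by
  unfold sw
  rw [if_pos ⟨j, by simp⟩, Sym2.map_mk]
  show s(_, Equiv.swap (D.X a) (D.X b) (D.U j)) = _
  rw [Equiv.swap_apply_of_ne_of_ne (D.ne a j).symm (D.ne b j).symm]

theorem sw_pos' {a b : Fin r} {v : V} (j : Fin r) :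
    D.sw a b s(D.U j, v) = s(D.U j, Equiv.swap (D.X a) (D.X b) v) := by
  rw [Sym2.eq_swap, sw_pos, Sym2.eq_swap]

theorem sw_neg {a b : Fin r} {e : Sym2 V} (h : ¬ ∃ j, D.U j ∈ e) : D.sw a b e = e := by
  unfold sw
  rw [if_neg h]

theorem sw_sw (a b : Fin r) (e : Sym2 V) : D.sw a b (D.sw a b e) = e := by
  by_cases h : ∃ j, D.U j ∈ e
  · obtain ⟨j, hj⟩ := h
    obtain ⟨v, rfl⟩ := hj
    rw [sw_pos', sw_pos', Equiv.swap_apply_self]
  · rw [D.sw_neg h, D.sw_neg h]

theorem swap_X (a b i : Fin r) :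
    Equiv.swap (D.X a) (D.X b) (D.X i) = D.X (Equiv.swap a b i) := by
  rw [Equiv.swap_apply_def, Equiv.swap_apply_def]
  by_cases h1 : i = a
  · subst h1
    simp
  · by_cases h2 : i = b
    · subst h2
      have h3 : D.X i ≠ D.X a := fun h => h1 (D.Xinj h)
      simp [h1, h3]
    · have h3 : D.X i ≠ D.X a := fun h => h1 (D.Xinj h)
      have h4 : D.X i ≠ D.X b := fun h => h2 (D.Xinj h)
      simp [h1, h2, h3, h4]

theorem mem_sw (a b : Fin r) (σ : Equiv.Perm (Fin r)) (e : Sym2 V) :
    e ∈ (D.T (Equiv.swap a b * σ)).edgeSet ↔ D.sw a b e ∈ (D.T σ).edgeSet := by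
  by_cases h : ∃ j, D.U j ∈ e
  · obtain ⟨j, hj⟩ := h
    obtain ⟨v, rfl⟩ := hj
    rw [sw_pos']
    by_cases hv : ∃ i, v = D.X i
    · obtain ⟨i, rfl⟩ := hv
      rw [swap_X, Sym2.eq_swap, Sym2.eq_swap (a := D.U j), SimpleGraph.mem_edgeSet,
        SimpleGraph.mem_edgeSet, D.adj, D.adj]
      show Equiv.swap a b (σ j) = i ↔ σ j = Equiv.swap a b i
      constructor
      · rintro rfl
        rw [Equiv.swap_apply_self]
      · intro h
        rw [h, Equiv.swap_apply_self]
    · push Not at hv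
      rw [Equiv.swap_apply_of_ne_of_ne (hv a) (hv b)]
      refine D.same _ _ _ ?_
      intro i j' h
      rcases Sym2.eq_iff.1 h with ⟨h1, _⟩ | ⟨_, h2⟩
      · exact D.ne i j h1.symm
      · exact hv i h2
  · rw [D.sw_neg h]
    refine D.same _ _ _ ?_
    intro i j h1
    exact h ⟨j, by rw [h1]; simp⟩

/-- The type of the matching edge at `X i`. -/
def ty (ω : Equiv.Perm (Fin r) × (V → Fin k) × (Sym2 V → Option (Fin l))) (i : Fin r) :
    Fin k × Option (Fin l) × Fin k :=
  (ω.2.1 (D.X i), ω.2.2 s(D.X i, D.U (ω.1⁻¹ i)), ω.2.1 (D.U (ω.1⁻¹ i)))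

/-- The switching of a configuration. -/
noncomputable def mv (a b : Fin r)
    (ω : Equiv.Perm (Fin r) × (V → Fin k) × (Sym2 V → Option (Fin l))) :
    Equiv.Perm (Fin r) × (V → Fin k) × (Sym2 V → Option (Fin l)) :=
  (Equiv.swap a b * ω.1, ω.2.1, ω.2.2 ∘ D.sw a b)

theorem mv_mv (a b : Fin r)
    (ω : Equiv.Perm (Fin r) × (V → Fin k) × (Sym2 V → Option (Fin l))) :
    D.mv a b (D.mv a b ω) = ω := by
  obtain ⟨σ, f, c⟩ := ω
  refine Prod.ext ?_ (Prod.ext rfl ?_)
  · show Equiv.swap a b * (Equiv.swap a b * σ) = σ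
    rw [← mul_assoc, Equiv.swap_mul_self, one_mul]
  · funext e
    show c (D.sw a b (D.sw a b e)) = c e
    rw [sw_sw]

theorem ty_mv (a b : Fin r)
    (ω : Equiv.Perm (Fin r) × (V → Fin k) × (Sym2 V → Option (Fin l)))
    (h : D.ty ω a = D.ty ω b) : D.ty (D.mv a b ω) = D.ty ω := by
  obtain ⟨σ, f, c⟩ := ω
  have h1 : f (D.X a) = f (D.X b) := congrArg (fun z => z.1) h
  have h2 : c s(D.X a, D.U (σ⁻¹ a)) = c s(D.X b, D.U (σ⁻¹ b)) := congrArg (fun z => z.2.1) h
  have h3 : f (D.U (σ⁻¹ a)) = f (D.U (σ⁻¹ b)) := congrArg (fun z => z.2.2) h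
  funext i
  have h4 : (Equiv.swap a b * σ)⁻¹ i = σ⁻¹ (Equiv.swap a b i) := by
    rw [mul_inv_rev, Equiv.swap_inv]
    rfl
  show (f (D.X i), c (D.sw a b s(D.X i, D.U ((Equiv.swap a b * σ)⁻¹ i))),
    f (D.U ((Equiv.swap a b * σ)⁻¹ i))) = (f (D.X i), c s(D.X i, D.U (σ⁻¹ i)), f (D.U (σ⁻¹ i)))
  rw [h4, sw_pos, swap_X]
  by_cases ha : i = a
  · subst ha
    rw [Equiv.swap_apply_left, h2, h3]
  · by_cases hb : i = b
    · subst hb
      rw [Equiv.swap_apply_right, h2, h3]
    · rw [Equiv.swap_apply_of_ne_of_ne ha hb]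

/-- The switching preserves what each vertex sees. -/
theorem aroundO_mv (a b : Fin r) (hab : a ≠ b) (σ : Equiv.Perm (Fin r)) (f : V → Fin k)
    (c : Sym2 V → Option (Fin l)) (hs : Supp (D.T σ) c)
    (h : D.ty (σ, f, c) a = D.ty (σ, f, c) b) (v : V) :
    aroundO f (c ∘ D.sw a b) v = aroundO f c v := by
  have h1 : f (D.X a) = f (D.X b) := congrArg (fun z => z.1) h
  have h2 : c s(D.X a, D.U (σ⁻¹ a)) = c s(D.X b, D.U (σ⁻¹ b)) := congrArg (fun z => z.2.1) h
  have h3 : f (D.U (σ⁻¹ a)) = f (D.U (σ⁻¹ b)) := congrArg (fun z => z.2.2) h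
  have hnone : ∀ i j, σ j ≠ i → c s(D.X i, D.U j) = none := by
    intro i j hij
    have h4 : ¬ (c s(D.X i, D.U j)).isSome := by
      intro h5
      exact hij ((D.adj σ i j).1 ((hs _).1 h5))
    cases hc : c s(D.X i, D.U j) with
    | none => rfl
    | some z =>
      rw [hc] at h4
      exact absurd rfl h4
  have hf : ∀ w, f (Equiv.swap (D.X a) (D.X b) w) = f w := by
    intro w
    rw [Equiv.swap_apply_def]
    split_ifs with h4 h5
    · rw [h4, h1]
    · rw [h5, h1]
    · rfl
  unfold aroundO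
  by_cases hU : ∃ j, v = D.U j
  · obtain ⟨j, rfl⟩ := hU
    refine filterMap_univ_equiv (Equiv.swap (D.X a) (D.X b)) _ _ ?_
    intro w
    show (c (D.sw a b s(D.U j, Equiv.swap (D.X a) (D.X b) w))).map
      (fun z => (z, f (Equiv.swap (D.X a) (D.X b) w))) = (c s(D.U j, w)).map (fun z => (z, f w))
    rw [sw_pos', Equiv.swap_apply_self, hf]
  · -- the key computation at the two switched vertices
    have key : ∀ a b : Fin r, a ≠ b → f (D.X a) = f (D.X b) →
        c s(D.X a, D.U (σ⁻¹ a)) = c s(D.X b, D.U (σ⁻¹ b)) →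
        f (D.U (σ⁻¹ a)) = f (D.U (σ⁻¹ b)) →
        (univ : Finset V).val.filterMap (fun w => ((c ∘ D.sw a b) s(D.X a, w)).map
          fun z => (z, f w)) =
        (univ : Finset V).val.filterMap (fun w => (c s(D.X a, w)).map fun z => (z, f w)) := by
      intro a b hab h1 h2 h3
      refine filterMap_univ_equiv (Equiv.swap (D.U (σ⁻¹ a)) (D.U (σ⁻¹ b))) _ _ ?_
      intro w
      show (c (D.sw a b s(D.X a, Equiv.swap (D.U (σ⁻¹ a)) (D.U (σ⁻¹ b)) w))).map
        (fun z => (z, f (Equiv.swap (D.U (σ⁻¹ a)) (D.U (σ⁻¹ b)) w))) =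
        (c s(D.X a, w)).map (fun z => (z, f w))
      by_cases hw : ∃ t, w = D.U t
      · obtain ⟨t, rfl⟩ := hw
        by_cases ht1 : t = σ⁻¹ a
        · subst ht1
          rw [Equiv.swap_apply_left, sw_pos, Equiv.swap_apply_left, ← h2, ← h3]
        · by_cases ht2 : t = σ⁻¹ b
          · subst ht2
            rw [Equiv.swap_apply_right, sw_pos, Equiv.swap_apply_left]
            have e1 : σ (σ⁻¹ a) ≠ b := by
              rw [apply_inv']
              exact hab
            have e2 : σ (σ⁻¹ b) ≠ a := by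
              rw [apply_inv']
              exact hab.symm
            rw [hnone _ _ e1, hnone _ _ e2]
            rfl
          · have n1 : D.U t ≠ D.U (σ⁻¹ a) := fun h => ht1 (D.Uinj h)
            have n2 : D.U t ≠ D.U (σ⁻¹ b) := fun h => ht2 (D.Uinj h)
            rw [Equiv.swap_apply_of_ne_of_ne n1 n2, sw_pos, Equiv.swap_apply_left]
            have e1 : σ t ≠ b := by
              intro h
              apply ht2
              rw [← h, inv_apply']
            have e2 : σ t ≠ a := by
              intro h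
              apply ht1
              rw [← h, inv_apply']
            rw [hnone _ _ e1, hnone _ _ e2]
      · push Not at hw
        rw [Equiv.swap_apply_of_ne_of_ne (hw _) (hw _), D.sw_neg]
        rintro ⟨j, hj⟩
        rcases Sym2.mem_iff.1 hj with h | h
        · exact D.ne a j h.symm
        · exact hw j h.symm
    by_cases hA : v = D.X a
    · subst hA
      exact key a b hab h1 h2 h3
    · by_cases hB : v = D.X b
      · subst hB
        have h4 := key b a hab.symm h1.symm h2.symm h3.symm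
        have h5 : D.sw b a = D.sw a b := by
          funext e
          unfold sw
          rw [Equiv.swap_comm]
        rw [h5] at h4
        exact h4
      · push Not at hU
        congr 1
        funext w
        show (c (D.sw a b s(v, w))).map (fun z => (z, f w)) = (c s(v, w)).map (fun z => (z, f w))
        congr 2
        by_cases hw : ∃ t, w = D.U t
        · obtain ⟨t, rfl⟩ := hw
          rw [sw_pos, Equiv.swap_apply_of_ne_of_ne hA hB]
        · push Not at hw
          rw [D.sw_neg]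
          rintro ⟨j, hj⟩
          rcases Sym2.mem_iff.1 hj with h | h
          · exact hU j h.symm
          · exact hw j h.symm

open Classical in
/-- Two positions with the same type, if there are any. -/
noncomputable def ch (t : Fin r → Fin k × Option (Fin l) × Fin k) : Option (Fin r × Fin r) :=
  if h : ∃ z : Fin r × Fin r, z.1 ≠ z.2 ∧ t z.1 = t z.2 then some h.choose else none

theorem ch_spec {t : Fin r → Fin k × Option (Fin l) × Fin k} {z : Fin r × Fin r}
    (h : ch t = some z) : z.1 ≠ z.2 ∧ t z.1 = t z.2 := by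
  unfold ch at h
  split_ifs at h with h1
  have h2 := h1.choose_spec
  rw [Option.some.inj h] at h2
  exact h2

theorem ch_isSome {t : Fin r → Fin k × Option (Fin l) × Fin k} {a b : Fin r} (hab : a ≠ b)
    (h : t a = t b) : ∃ z, ch t = some z := by
  unfold ch
  rw [dif_pos ⟨(a, b), hab, h⟩]
  exact ⟨_, rfl⟩

/-- If there are more than `k ^ 2 * l` positions, then the signed number of configurations with
given views is zero. -/
theorem signed (hr : k ^ 2 * l < r) (s : Multiset (Fin k × Multiset (Fin l × Fin k))) :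
    ∑ σ : Equiv.Perm (Fin r), (Equiv.Perm.sign σ : ℤ) * (nv k l (D.T σ) s : ℤ) = 0 := by
  classical
  have hnv : ∀ σ, (nv k l (D.T σ) s : ℤ) =
      ∑ p : (V → Fin k) × (Sym2 V → Option (Fin l)),
        if Supp (D.T σ) p.2 ∧ viewsO p.1 p.2 = s then 1 else 0 := by
    intro σ
    unfold nv
    rw [Finset.sum_boole, Nat.card_eq_fintype_card, Fintype.card_subtype]
  simp only [hnv, Finset.mul_sum]
  rw [← Fintype.sum_prod_type' (f := fun (σ : Equiv.Perm (Fin r))
    (p : (V → Fin k) × (Sym2 V → Option (Fin l))) => (Equiv.Perm.sign σ : ℤ) *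
      if Supp (D.T σ) p.2 ∧ viewsO p.1 p.2 = s then 1 else 0)]
  have hfil : ∀ F : (Equiv.Perm (Fin r) × (V → Fin k) × (Sym2 V → Option (Fin l))) → ℤ,
      (∀ ω, ¬ (Supp (D.T ω.1) ω.2.2 ∧ viewsO ω.2.1 ω.2.2 = s) → F ω = 0) →
      ∑ ω, F ω = ∑ ω ∈ univ.filter (fun ω : Equiv.Perm (Fin r) × (V → Fin k) ×
        (Sym2 V → Option (Fin l)) => Supp (D.T ω.1) ω.2.2 ∧ viewsO ω.2.1 ω.2.2 = s), F ω := by
    intro F hF
    rw [Finset.sum_filter]
    refine Finset.sum_congr rfl fun ω _ => ?_
    by_cases h : Supp (D.T ω.1) ω.2.2 ∧ viewsO ω.2.1 ω.2.2 = s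
    · rw [if_pos h]
    · rw [if_neg h, hF ω h]
  rw [hfil _ (fun ω h => by rw [if_neg h, mul_zero])]
  have hch : ∀ ω : Equiv.Perm (Fin r) × (V → Fin k) × (Sym2 V → Option (Fin l)),
      Supp (D.T ω.1) ω.2.2 → ∃ z, ch (D.ty ω) = some z := by
    rintro ⟨σ, f, c⟩ hs
    have hsome : ∀ i, (c s(D.X i, D.U (σ⁻¹ i))).isSome := by
      intro i
      refine (hs _).2 ?_
      show (D.T σ).Adj (D.X i) (D.U (σ⁻¹ i))
      rw [D.adj, apply_inv']
    obtain ⟨a, b, hab, h⟩ := Fintype.exists_ne_map_eq_of_card_lt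
      (fun i : Fin r => (f (D.X i), (c s(D.X i, D.U (σ⁻¹ i))).get (hsome i),
        f (D.U (σ⁻¹ i)))) (by
          simp only [Fintype.card_prod, Fintype.card_fin]
          calc k * (l * k) = k ^ 2 * l := by ring
            _ < r := hr)
    refine ch_isSome hab ?_
    have h1 : f (D.X a) = f (D.X b) := congrArg (fun z => z.1) h
    have h2 : (c s(D.X a, D.U (σ⁻¹ a))).get (hsome a) =
      (c s(D.X b, D.U (σ⁻¹ b))).get (hsome b) := congrArg (fun z => z.2.1) h
    have h3 : f (D.U (σ⁻¹ a)) = f (D.U (σ⁻¹ b)) := congrArg (fun z => z.2.2) h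
    refine Prod.ext h1 (Prod.ext ?_ h3)
    show c s(D.X a, D.U (σ⁻¹ a)) = c s(D.X b, D.U (σ⁻¹ b))
    rw [← Option.some_get (hsome a), ← Option.some_get (hsome b), h2]
  refine Finset.sum_involution
    (fun ω _ => match ch (D.ty ω) with
      | some z => D.mv z.1 z.2 ω
      | none => ω) ?_ ?_ ?_ ?_
  · intro ω hω
    obtain ⟨hs, hv⟩ := (Finset.mem_filter.1 hω).2
    obtain ⟨z, hz⟩ := hch ω hs
    obtain ⟨hz1, hz2⟩ := ch_spec hz
    simp only [hz]
    obtain ⟨σ, f, c⟩ := ω
    have hs' : Supp (D.T (Equiv.swap z.1 z.2 * σ)) (c ∘ D.sw z.1 z.2) := by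
      intro e
      rw [D.mem_sw]
      exact hs _
    have hv' : viewsO f (c ∘ D.sw z.1 z.2) = s := by
      have hv2 : viewsO f c = s := hv
      rw [← hv2]
      unfold viewsO
      congr 1
      funext v
      rw [D.aroundO_mv z.1 z.2 hz1 σ f c hs hz2]
    show (Equiv.Perm.sign σ : ℤ) * (if Supp (D.T σ) c ∧ viewsO f c = s then 1 else 0) +
      (Equiv.Perm.sign (Equiv.swap z.1 z.2 * σ) : ℤ) *
        (if Supp (D.T (Equiv.swap z.1 z.2 * σ)) (c ∘ D.sw z.1 z.2) ∧
          viewsO f (c ∘ D.sw z.1 z.2) = s then 1 else 0) = 0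
    rw [if_pos ⟨hs, hv⟩, if_pos ⟨hs', hv'⟩, Equiv.Perm.sign_mul, Equiv.Perm.sign_swap hz1]
    push_cast
    ring
  · intro ω hω _ h
    obtain ⟨hs, hv⟩ := (Finset.mem_filter.1 hω).2
    obtain ⟨z, hz⟩ := hch ω hs
    obtain ⟨hz1, hz2⟩ := ch_spec hz
    simp only [hz] at h
    have h1 : Equiv.swap z.1 z.2 * ω.1 = ω.1 := congrArg Prod.fst h
    have h2 : Equiv.swap z.1 z.2 = 1 := by
      have := congrArg (fun y => y * ω.1⁻¹) h1
      simpa [mul_assoc] using this
    have h3 := congrArg (fun y : Equiv.Perm (Fin r) => y z.1) h2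
    simp only [Equiv.swap_apply_left, Equiv.Perm.one_apply] at h3
    exact hz1 h3.symm
  · intro ω hω
    obtain ⟨hs, hv⟩ := (Finset.mem_filter.1 hω).2
    obtain ⟨z, hz⟩ := hch ω hs
    obtain ⟨hz1, hz2⟩ := ch_spec hz
    simp only [hz]
    obtain ⟨σ, f, c⟩ := ω
    refine Finset.mem_filter.2 ⟨Finset.mem_univ _, ?_, ?_⟩
    · intro e
      show (c (D.sw z.1 z.2 e)).isSome ↔ e ∈ (D.T (Equiv.swap z.1 z.2 * σ)).edgeSet
      rw [D.mem_sw]
      exact hs _
    · have hv2 : viewsO f c = s := hv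
      show viewsO f (c ∘ D.sw z.1 z.2) = s
      rw [← hv2]
      unfold viewsO
      congr 1
      funext v
      rw [D.aroundO_mv z.1 z.2 hz1 σ f c hs hz2]
  · intro ω hω
    obtain ⟨hs, hv⟩ := (Finset.mem_filter.1 hω).2
    obtain ⟨z, hz⟩ := hch ω hs
    obtain ⟨hz1, hz2⟩ := ch_spec hz
    simp only [hz]
    have h1 : ch (D.ty (D.mv z.1 z.2 ω)) = some z := by
      rw [D.ty_mv z.1 z.2 ω hz2, hz]
    simp only [h1]
    exact D.mv_mv z.1 z.2 ω

end Sw

end Pool.Agent.Q210.LM
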